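import Pool.Agent.Y53.FA.Fac8

set_option autoImplicit false

/-!
# MP_15e1ec_an, Q1: the factorization constants can grow arbitrarily fast with the norm

For every function `φ` there is a Banach space with a normalized Schauder basis `e` which has the
factorization property, with constants bounded on norm bounded sets of operators, while for every
`n ≥ 2` some operator of norm at most `n`, with diagonal entries at least one in absolute value,
factors the identity only with constants at least `φ n`.  The basis `e` is obtained from a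
normalized 1-unconditional basis `u` of the same space, which has the uniform factorization property
with the best possible constant `1 / δ`, by replacing the pairs `u (2 m)`, `u (2 m + 1)` with
`u (2 m) + θ u (2 m + 1)`, `u (2 m + 1) - θ u (2 m)`.
-/

namespace Pool.Agent.Results.MP_15e1ec_an.ArbitrarilyNonUniform

section
variable {X : Type} [NormedAddCommGroup X] [NormedSpace ℝ X]

/-- the identity is `S T R` with `‖R‖ ‖S‖ ≤ K` -/
def FactorsWithin (K : ℝ) (T : X →L[ℝ] X) : Prop :=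
  ∃ S R : X →L[ℝ] X, S.comp (T.comp R) = ContinuousLinearMap.id ℝ X ∧ ‖R‖ * ‖S‖ ≤ K

/-- all diagonal entries of `T` are at least `δ` in absolute value -/
def LargeDiagonal (e : SchauderBasis ℝ X) (δ : ℝ) (T : X →L[ℝ] X) : Prop :=
  ∀ n, δ ≤ |e.coord n (T (e n))|

/-- the factorization property -/
def FactorizationProperty (e : SchauderBasis ℝ X) : Prop :=
  ∀ T : X →L[ℝ] X, (∃ δ : ℝ, 0 < δ ∧ LargeDiagonal e δ T) → ∃ K, FactorsWithin K T

/-- the uniform factorization property with the constants `K δ` -/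
def UniformWith (e : SchauderBasis ℝ X) (K : ℝ → ℝ) : Prop :=
  ∀ δ : ℝ, 0 < δ → ∀ T : X →L[ℝ] X, LargeDiagonal e δ T → ∀ ε : ℝ, 0 < ε →
    FactorsWithin (K δ + ε) T

end

theorem result (φ : ℕ → ℝ) : ∃ (X : Type) (_ : NormedAddCommGroup X) (_ : NormedSpace ℝ X)
    (_ : CompleteSpace X) (e u : SchauderBasis ℝ X) (θ : ℕ → ℝ),
    -- `e` is normalized and has the factorization property, not the uniform one
    (∀ n, ‖e n‖ = 1) ∧ FactorizationProperty e ∧ (∀ K : ℝ → ℝ, ¬ UniformWith e K) ∧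
    -- the factorization constants of `e` are bounded on bounded sets of operators
    (∀ δ C : ℝ, 0 < δ → ∃ K, ∀ T, ‖T‖ ≤ C → LargeDiagonal e δ T → FactorsWithin K T) ∧
    -- they grow faster than `φ`
    (∀ n : ℕ, 2 ≤ n → ∃ T : X →L[ℝ] X, ‖T‖ ≤ n ∧ LargeDiagonal e 1 T ∧
      ∀ K, FactorsWithin K T → φ n ≤ K) ∧
    -- `u` is normalized and 1-unconditional, with the uniform factorization property
    (∀ n, ‖u n‖ = 1) ∧
    (∀ (s : Finset ℕ) (a b : ℕ → ℝ), (∀ n ∈ s, |a n| ≤ |b n|) →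
      ‖∑ n ∈ s, a n • u n‖ ≤ ‖∑ n ∈ s, b n • u n‖) ∧
    UniformWith u (fun δ => 1 / δ) ∧
    -- `e` is obtained from `u` by tilting pairs
    ∀ m, 0 < θ m ∧ θ m ≤ 1 ∧ e (2 * m) = u (2 * m) + θ m • u (2 * m + 1) ∧
      e (2 * m + 1) = u (2 * m + 1) - θ m • u (2 * m) := by
  letI : Pool.Agent.Y53.FA.Par :=
    ⟨fun k => (∑ n ∈ Finset.range ((k + 2) ^ 2 + 1), ⌈φ n⌉₊) + (k + 1), fun k => by positivity⟩
  have hf : ∀ k : ℕ, Pool.Agent.Y53.FA.Par.f k =
      (∑ n ∈ Finset.range ((k + 2) ^ 2 + 1), ⌈φ n⌉₊) + (k + 1) := fun _ => rfl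
  refine ⟨Pool.Agent.Y53.FA.X, inferInstance, inferInstance, inferInstance,
    Pool.Agent.Y53.FA.bas, Pool.Agent.Y53.FA.gas,
    fun m => Pool.Agent.Y53.FA.th (Nat.unpair m).1, Pool.Agent.Y53.FA.bas_norm,
    ?_, ?_, ?_, ?_, Pool.Agent.Y53.FA.gas_norm, Pool.Agent.Y53.FA.gas_mono, ?_, ?_⟩
  · rintro T ⟨δ, hδ, h⟩
    obtain ⟨K, hK⟩ := Pool.Agent.Y53.FA.bas_fp hδ ‖T‖
    exact ⟨K, hK T le_rfl h⟩
  · intro K hU
    obtain ⟨k, hk⟩ := exists_nat_gt (K 1 + 1)
    obtain ⟨S, R, h1, h2⟩ := hU 1 one_pos (Pool.Agent.Y53.FA.Tb k)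
      (Pool.Agent.Y53.FA.Tb_diag_bas k) 1 one_pos
    have h3 := Pool.Agent.Y53.FA.bad k h1 h2
    have h4 : (k : ℝ) ≤ (Pool.Agent.Y53.FA.Par.f k : ℝ) := by
      rw [hf]
      have : k ≤ (∑ n ∈ Finset.range ((k + 2) ^ 2 + 1), ⌈φ n⌉₊) + (k + 1) := by omega
      exact_mod_cast this
    linarith
  · intro δ C hδ
    obtain ⟨K, hK⟩ := Pool.Agent.Y53.FA.bas_fp hδ C
    exact ⟨K, fun T hT h => hK T hT h⟩
  · intro n hn
    obtain ⟨k, hk⟩ : ∃ k, Nat.sqrt (n - 1) = k + 1 := by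
      have : 0 < Nat.sqrt (n - 1) := Nat.sqrt_pos.2 (by omega)
      exact ⟨Nat.sqrt (n - 1) - 1, by omega⟩
    have h1 : (k + 1) ^ 2 + 1 ≤ n := by
      have := Nat.sqrt_le' (n - 1)
      rw [hk] at this
      omega
    have h2 : n < (k + 2) ^ 2 + 1 := by
      have := Nat.lt_succ_sqrt' (n - 1)
      rw [hk] at this
      have e : (k + 1).succ = k + 2 := rfl
      rw [e] at this
      omega
    refine ⟨Pool.Agent.Y53.FA.Tb k, ?_, Pool.Agent.Y53.FA.Tb_diag_bas k, ?_⟩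
    · refine (Pool.Agent.Y53.FA.Tb_norm k).trans ?_
      have : Pool.Agent.Y53.FA.Cc k ≤ n := h1
      exact_mod_cast this
    · rintro K ⟨S, R, h3, h4⟩
      have h5 := Pool.Agent.Y53.FA.bad k h3 h4
      refine le_trans ?_ h5
      refine (Nat.le_ceil (φ n)).trans ?_
      rw [hf]
      have h6 : ⌈φ n⌉₊ ≤ ∑ n ∈ Finset.range ((k + 2) ^ 2 + 1), ⌈φ n⌉₊ :=
        Finset.single_le_sum (f := fun n : ℕ => ⌈φ n⌉₊) (fun _ _ => Nat.zero_le _)
          (Finset.mem_range.2 h2)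
      have h7 : ⌈φ n⌉₊ ≤ (∑ n ∈ Finset.range ((k + 2) ^ 2 + 1), ⌈φ n⌉₊) + (k + 1) := by omega
      exact_mod_cast h7
  · intro δ hδ T h ε hε
    exact Pool.Agent.Y53.FA.gas_fp hδ T h hε
  · intro m
    exact ⟨Pool.Agent.Y53.FA.th_pos _, Pool.Agent.Y53.FA.th_le_one _,
      (Pool.Agent.Y53.FA.bas_two m).1, (Pool.Agent.Y53.FA.bas_two m).2⟩

end Pool.Agent.Results.MP_15e1ec_an.ArbitrarilyNonUniform
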